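import Pool.Agent.helper83.LS.Spec

set_option autoImplicit false

namespace LSH

theorem RW_swap (p : Pt) (h : Bool) (s t : BT) (S : Finset Pt) (d : PT)
    (hd : Att p h (.br s t) S d) : ∃ d', Att p h (.br t s) S d' ∧ d'.root = d.root := by
  obtain ⟨hs, hp, he⟩ := hd
  cases d with
  | leaf x => simp [PT.shape] at hs
  | un x a u => simp [PT.shape] at hs
  | br x a u b v =>
    simp only [PT.shape, BT.br.injEq] at hs
    refine ⟨.br x b v a u, ⟨?_, ?_, ?_⟩, rfl⟩
    · simp only [PT.shape]
      rw [hs.1, hs.2]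
    · rw [← hp]
      simp only [PT.pts]
      rw [add_comm v.pts u.pts]
    · have hsym : ∀ {e f : Edge}, NC e f → NC f e := fun {e f} hef z h1 h2 => (hef z h2 h1).symm
      refine (List.Perm.pairwise_iff hsym ?_).1 he
      unfold att
      simp only [PT.root, PT.edges]
      exact (List.perm_append_comm).cons _

theorem RW (h1 : RW1_stmt) (h2 : RW2_stmt) (h3 : SX_stmt) : RW_stmt := by
  intro s t hs ht
  have key : WW (.br s t) := by
    intro S p hcard hgen hleft
    have hG : Gen (S : Set Pt) := fun a ha b hb hab =>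
      hgen a (Set.mem_insert_of_mem _ ha) b (Set.mem_insert_of_mem _ hb) hab
    obtain ⟨Q, hQS, hQc, hQ⟩ := h3 S (s.size + 1) hG (by rw [hcard]; simp [BT.size])
    by_cases hq : ∃ q ∈ Q, q.2 < p.2
    · obtain ⟨d, hd, hr⟩ := h1 s t hs ht S Q p hcard hgen hleft hQS hQc hQ hq
      exact ⟨d, false, hd, Or.inr hr⟩
    · push Not at hq
      have hq' : ∀ q ∈ Q, p.2 < q.2 := by
        intro q hqQ
        have hqS := hQS hqQ
        have hne : p ≠ q := by
          rintro rfl
          exact lt_irrefl _ (hleft _ hqS)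
        exact lt_of_le_of_ne (hq q hqQ)
          (hgen p (Set.mem_insert _ _) q (Set.mem_insert_of_mem _ (by exact_mod_cast hqS)) hne).2
      obtain ⟨d, hd⟩ := h2 s t hs ht S Q p hcard hgen hleft hQS hQc hQ hq'
      exact ⟨d, true, hd, Or.inl rfl⟩
  refine ⟨key, ?_⟩
  intro S p hcard hgen hleft
  obtain ⟨d, h, hd, hr⟩ := key S p (by rw [hcard]; simp [BT.size]; omega) hgen hleft
  obtain ⟨d', hd', hroot⟩ := RW_swap p h s t S d hd
  exact ⟨d', h, hd', by rw [hroot]; exact hr⟩

end LSH
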